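import Mathlib

/-!
The preferential attachment graph process on a fixed vertex set, the uniform random graph with a
given number of edges, total variation distance and component sizes.
-/

namespace Q299.PAE

open Finset

/-- All pairs of distinct vertices of `[n]`. A graph is a finite set of such pairs. -/
def pairs (n : ℕ) : Finset (Sym2 (Fin n)) := univ.filter fun e => ¬ e.IsDiag

/-- The degree of `v` in the graph with edge set `E`. -/
def deg {n : ℕ} (E : Finset (Sym2 (Fin n))) (v : Fin n) : ℕ := #{e ∈ E | v ∈ e}

/-- The weight `(d_v + α)(d_w + α)` of the pair `{v, w}`. -/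
noncomputable def wt {n : ℕ} (α : ℝ) (E : Finset (Sym2 (Fin n))) (e : Sym2 (Fin n)) : ℝ :=
  ∏ v ∈ univ.filter (fun v => v ∈ e), ((deg E v : ℝ) + α)

/-- The law of the edge set of `G^α_{n,m}`: given the current graph, the next edge is the
non-adjacent pair `e` with probability proportional to `wt α E e`. -/
noncomputable def pa (α : ℝ) (n : ℕ) : ℕ → Finset (Sym2 (Fin n)) → ℝ
  | 0, E => if E = ∅ then 1 else 0
  | m + 1, E => ∑ e ∈ E.filter (fun e => e ∈ pairs n), pa α n m (E.erase e) *
      (wt α (E.erase e) e / ∑ f ∈ pairs n \ E.erase e, wt α (E.erase e) f)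

/-- The law of the edge set of the uniformly random graph on `[n]` with `m` edges. -/
noncomputable def er (n m : ℕ) (E : Finset (Sym2 (Fin n))) : ℝ :=
  if E ⊆ pairs n ∧ E.card = m then ((((pairs n).card.choose m : ℕ) : ℝ))⁻¹ else 0

/-- Total variation distance of two laws on a finite type. -/
noncomputable def tv {Ω : Type*} [Fintype Ω] (P Q : Ω → ℝ) : ℝ := (1 / 2) * ∑ ω, |P ω - Q ω|

open Classical in
/-- The multiset of the numbers of vertices of the components of the graph with edge set `E`. -/
noncomputable def compSizes {n : ℕ} (E : Finset (Sym2 (Fin n))) : Multiset ℕ :=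
  (univ : Finset (SimpleGraph.fromEdgeSet (E : Set (Sym2 (Fin n)))).ConnectedComponent).val.map
    fun c => Nat.card c.supp

/-- `L_j` for `j = 1, 2, ...` (indexed here from `0`): the number of vertices of the
`(j+1)`-st largest component, and `0` if there are fewer components. -/
noncomputable def L {n : ℕ} (E : Finset (Sym2 (Fin n))) (j : ℕ) : ℕ :=
  ((compSizes E).sort (· ≥ ·)).getD j 0

/-- Expectation of `f (L_1 / n^{2/3}, ..., L_k / n^{2/3})` under the law `P` on graphs. -/
noncomputable def expL {n : ℕ} (P : Finset (Sym2 (Fin n)) → ℝ) (k : ℕ) (f : (Fin k → ℝ) → ℝ) : ℝ :=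
  ∑ E, P E * f (fun j => (L E j : ℝ) / (n : ℝ) ^ (2 / 3 : ℝ))

end Q299.PAE
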