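import Pool.Agent.Q299.PAE.Defs

/-!
Relative entropy of the uniform random graph with respect to the preferential attachment process.
-/

namespace Q299.PAE

open Finset

variable {n : ℕ}

lemma card_pairs (n : ℕ) : (pairs n).card = n * (n - 1) / 2 := by
  have := Sym2.card_subtype_not_diag (α := Fin n)
  rw [Fintype.card_fin] at this
  rw [← Nat.choose_two_right, ← this, Fintype.card_subtype]
  rfl

lemma mem_pairs {e : Sym2 (Fin n)} : e ∈ pairs n ↔ ¬ e.IsDiag := by
  unfold pairs; simp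

lemma filter_mem {u v : Fin n} : (univ.filter fun w => w ∈ s(u, v)) = {u, v} := by
  ext w; simp

lemma card_filter_mem {e : Sym2 (Fin n)} (he : e ∈ pairs n) :
    (univ.filter fun w => w ∈ e).card = 2 := by
  induction e with
  | _ u v =>
    rw [filter_mem]
    rw [mem_pairs, Sym2.mk_isDiag_iff] at he
    exact card_pair he

/-- number of pairs that contain `v` -/
lemma card_pairs_mem (v : Fin n) : ((pairs n).filter fun e => v ∈ e).card ≤ n := by
  have : ((pairs n).filter fun e => v ∈ e) ⊆ (univ : Finset (Fin n)).image fun w => s(v, w) := by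
    intro e he
    have := (mem_filter.mp he).2
    obtain ⟨w, rfl⟩ := Sym2.mem_iff_exists.mp this
    exact mem_image.mpr ⟨w, mem_univ _, rfl⟩
  calc _ ≤ _ := card_le_card this
    _ ≤ (univ : Finset (Fin n)).card := card_image_le
    _ = n := by simp

/-- sum over edges of a vertex function -/
lemma sum_sum_mem {A : Finset (Sym2 (Fin n))} (hA : A ⊆ pairs n) (g : Fin n → ℝ)
    (hg : ∀ v, 0 ≤ g v) :
    ∑ e ∈ A, ∑ v ∈ univ.filter (fun v => v ∈ e), g v ≤ n * ∑ v, g v := by
  have h1 : ∑ e ∈ A, ∑ v ∈ univ.filter (fun v => v ∈ e), g v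
      = ∑ v, ((A.filter fun e => v ∈ e).card : ℝ) * g v := by
    rw [Finset.sum_comm' (t' := univ) (s' := fun v => A.filter fun e => v ∈ e) (by
      intro e v; simp)]
    refine Finset.sum_congr rfl fun v _ => ?_
    rw [Finset.sum_const, nsmul_eq_mul]
  rw [h1, Finset.mul_sum]
  refine Finset.sum_le_sum fun v _ => mul_le_mul_of_nonneg_right ?_ (hg v)
  have : (A.filter fun e => v ∈ e).card ≤ n :=
    (card_le_card (filter_subset_filter _ hA)).trans (card_pairs_mem v)
  exact_mod_cast this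

lemma sum_deg {E : Finset (Sym2 (Fin n))} (hE : E ⊆ pairs n) : ∑ v, deg E v = 2 * E.card := by
  unfold deg
  have h1 : ∑ v : Fin n, #{e ∈ E | v ∈ e} = ∑ e ∈ E, (univ.filter fun v => v ∈ e).card := by
    simp only [card_filter]
    rw [Finset.sum_comm]
  rw [h1, Finset.sum_congr rfl fun e he => card_filter_mem (hE he), Finset.sum_const, smul_eq_mul,
    mul_comm]

lemma wt_pos {α : ℝ} (hα : 0 < α) (E : Finset (Sym2 (Fin n))) (e : Sym2 (Fin n)) :
    0 < wt α E e := by
  unfold wt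
  exact Finset.prod_pos fun v _ => by positivity

/-- the graphs with `m` edges -/
def gr (n m : ℕ) : Finset (Finset (Sym2 (Fin n))) := (pairs n).powersetCard m

lemma mem_gr {m : ℕ} {E : Finset (Sym2 (Fin n))} : E ∈ gr n m ↔ E ⊆ pairs n ∧ E.card = m :=
  mem_powersetCard

/-- double counting of (graph with `m+1` edges, edge) and (graph with `m` edges, non-edge) -/
lemma sum_gr_succ (m : ℕ) (F : Finset (Sym2 (Fin n)) → Sym2 (Fin n) → ℝ) :
    ∑ E' ∈ gr n (m + 1), ∑ e ∈ E', F (E'.erase e) e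
      = ∑ E ∈ gr n m, ∑ e ∈ pairs n \ E, F E e := by
  rw [Finset.sum_sigma', Finset.sum_sigma']
  refine Finset.sum_bij' (fun x _ => ⟨x.1.erase x.2, x.2⟩) (fun x _ => ⟨insert x.2 x.1, x.2⟩)
    ?_ ?_ ?_ ?_ ?_
  · rintro ⟨E', e⟩ h
    rw [mem_sigma] at h ⊢
    obtain ⟨h1, h2⟩ := h
    rw [mem_gr] at h1
    simp only at h2 ⊢
    refine ⟨mem_gr.mpr ⟨(erase_subset _ _).trans h1.1, ?_⟩, ?_⟩
    · rw [card_erase_of_mem h2, h1.2]; rfl
    · rw [mem_sdiff]
      exact ⟨h1.1 h2, notMem_erase e E'⟩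
  · rintro ⟨E, e⟩ h
    rw [mem_sigma] at h ⊢
    obtain ⟨h1, h2⟩ := h
    rw [mem_gr] at h1
    simp only [mem_sdiff] at h2 ⊢
    refine ⟨mem_gr.mpr ⟨insert_subset h2.1 h1.1, ?_⟩, mem_insert_self _ _⟩
    rw [card_insert_of_notMem h2.2, h1.2]
  · rintro ⟨E', e⟩ h
    rw [mem_sigma] at h
    simp only at h ⊢
    rw [insert_erase h.2]
  · rintro ⟨E, e⟩ h
    rw [mem_sigma] at h
    simp only [mem_sdiff] at h ⊢
    rw [erase_insert h.2.2]
  · rintro ⟨E', e⟩ h
    rfl

lemma card_gr_succ (m : ℕ) :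
    ((gr n (m + 1)).card : ℝ) * (m + 1) = (gr n m).card * (((pairs n).card : ℝ) - m) := by
  have h := sum_gr_succ (n := n) m (fun _ _ => 1)
  simp only [sum_const, nsmul_eq_mul, mul_one] at h
  have h1 : ∑ E' ∈ gr n (m + 1), (E'.card : ℝ) = (gr n (m + 1)).card * (m + 1) := by
    rw [Finset.sum_congr rfl fun E' hE' => by rw [(mem_gr.mp hE').2], Finset.sum_const,
      nsmul_eq_mul]
    push_cast; rfl
  have h2 : ∑ E ∈ gr n m, ((pairs n \ E).card : ℝ)
      = (gr n m).card * (((pairs n).card : ℝ) - m) := by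
    rw [Finset.sum_congr rfl fun E hE => by
      rw [card_sdiff_of_subset (mem_gr.mp hE).1, Nat.cast_sub (card_le_card (mem_gr.mp hE).1),
        (mem_gr.mp hE).2], Finset.sum_const, nsmul_eq_mul]
  rw [h1, h2] at h
  exact h

/-- transition probability -/
noncomputable def K (α : ℝ) (E : Finset (Sym2 (Fin n))) (e : Sym2 (Fin n)) : ℝ :=
  wt α E e / ∑ f ∈ pairs n \ E, wt α E f

lemma pa_succ {α : ℝ} {m : ℕ} {E' : Finset (Sym2 (Fin n))} (hE' : E' ⊆ pairs n) :
    pa α n (m + 1) E' = ∑ e ∈ E', pa α n m (E'.erase e) * K α (E'.erase e) e := by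
  rw [pa, filter_true_of_mem (fun e he => hE' he)]
  rfl

lemma K_pos {α : ℝ} (hα : 0 < α) {E : Finset (Sym2 (Fin n))} {e : Sym2 (Fin n)}
    (he : e ∈ pairs n \ E) : 0 < K α E e := by
  unfold K
  exact div_pos (wt_pos hα _ _) (Finset.sum_pos (fun f _ => wt_pos hα _ _) ⟨e, he⟩)

lemma pa_pos {α : ℝ} (hα : 0 < α) (m : ℕ) : ∀ E ∈ gr n m, 0 < pa α n m E := by
  induction m with
  | zero =>
    intro E hE
    rw [mem_gr, card_eq_zero] at hE
    rw [pa, if_pos hE.2]; exact one_pos
  | succ m ih =>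
    intro E' hE'
    obtain ⟨h1, h2⟩ := mem_gr.mp hE'
    rw [pa_succ h1]
    have hne : E'.Nonempty := by rw [← card_pos]; omega
    refine Finset.sum_pos (fun e he => ?_) hne
    have h3 : E'.erase e ∈ gr n m :=
      mem_gr.mpr ⟨(erase_subset _ _).trans h1, by rw [card_erase_of_mem he, h2]; rfl⟩
    exact mul_pos (ih _ h3) (K_pos hα (mem_sdiff.mpr ⟨h1 he, notMem_erase e E'⟩))

lemma pa_zero_of_notMem {α : ℝ} (m : ℕ) : ∀ E, E ∉ gr n m → pa α n m E = 0 := by
  induction m with
  | zero =>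
    intro E hE
    rw [pa, if_neg]
    rintro rfl
    exact hE (mem_gr.mpr ⟨empty_subset _, rfl⟩)
  | succ m ih =>
    intro E' hE'
    rw [pa]
    refine Finset.sum_eq_zero fun e he => ?_
    obtain ⟨he1, he2⟩ := mem_filter.mp he
    rw [ih, zero_mul]
    intro hcon
    apply hE'
    obtain ⟨h1, h2⟩ := mem_gr.mp hcon
    refine mem_gr.mpr ⟨?_, ?_⟩
    · rw [← insert_erase he1]
      exact insert_subset he2 h1
    · rw [← insert_erase he1, card_insert_of_notMem (notMem_erase _ _), h2]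

lemma sum_K {α : ℝ} (hα : 0 < α) {E : Finset (Sym2 (Fin n))} (h : (pairs n \ E).Nonempty) :
    ∑ e ∈ pairs n \ E, K α E e = 1 := by
  unfold K
  rw [← Finset.sum_div]
  exact div_self (Finset.sum_pos (fun f _ => wt_pos hα _ _) h).ne'

lemma sum_pa {α : ℝ} (hα : 0 < α) (m : ℕ) (hm : m ≤ (pairs n).card) :
    ∑ E ∈ gr n m, pa α n m E = 1 := by
  induction m with
  | zero =>
    have : gr n 0 = {∅} := by unfold gr; rw [powersetCard_zero]
    rw [this, Finset.sum_singleton, pa, if_pos rfl]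
  | succ m ih =>
    have h1 : ∑ E' ∈ gr n (m + 1), pa α n (m + 1) E'
        = ∑ E' ∈ gr n (m + 1), ∑ e ∈ E', pa α n m (E'.erase e) * K α (E'.erase e) e :=
      Finset.sum_congr rfl fun E' hE' => pa_succ (mem_gr.mp hE').1
    rw [h1, sum_gr_succ m (fun E e => pa α n m E * K α E e), ← ih (by omega)]
    refine Finset.sum_congr rfl fun E hE => ?_
    obtain ⟨h2, h3⟩ := mem_gr.mp hE
    have hne : (pairs n \ E).Nonempty := by
      rw [← card_pos, card_sdiff_of_subset h2, h3]; omega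
    rw [← Finset.mul_sum, sum_K hα hne, mul_one]

/-! ### second moment of the degrees in the uniform graph -/

/-- sum of squares of degrees -/
noncomputable def D2 (E : Finset (Sym2 (Fin n))) : ℝ := ∑ v, (deg E v : ℝ) ^ 2

lemma deg_insert {E : Finset (Sym2 (Fin n))} {e : Sym2 (Fin n)} (he : e ∉ E) (v : Fin n) :
    deg (insert e E) v = deg E v + if v ∈ e then 1 else 0 := by
  unfold deg
  rw [filter_insert]
  split_ifs with h
  · rw [card_insert_of_notMem]
    intro hcon
    exact he (mem_filter.mp hcon).1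
  · rfl

lemma D2_insert {E : Finset (Sym2 (Fin n))} {e : Sym2 (Fin n)} (he : e ∉ E) :
    D2 (insert e E) = D2 E + ∑ v ∈ univ.filter (fun v => v ∈ e), (2 * (deg E v : ℝ) + 1) := by
  unfold D2
  rw [Finset.sum_filter, ← Finset.sum_add_distrib]
  refine Finset.sum_congr rfl fun v _ => ?_
  rw [deg_insert he]
  split_ifs
  · push_cast; ring
  · push_cast; ring

lemma pairs_large (hn : 6 ≤ n) : ((n : ℝ) ^ 2) / 4 ≤ ((pairs n).card : ℝ) - n := by
  have h1 : n ^ 2 + 4 * n ≤ 4 * (pairs n).card := by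
    rw [card_pairs]
    have h2 : n * (n - 1) / 2 * 2 = n * (n - 1) :=
      Nat.div_mul_cancel (Nat.even_mul_pred_self n).two_dvd
    obtain ⟨k, rfl⟩ : ∃ k, n = k + 6 := ⟨n - 6, by omega⟩
    have h3 : (k + 6) * (k + 6 - 1) = (k + 6) * (k + 5) := by congr 1
    rw [h3] at h2 ⊢
    nlinarith
  have h2 : ((n : ℝ) ^ 2 + 4 * n) ≤ 4 * (pairs n).card := by exact_mod_cast h1
  linarith

lemma sum_D2_le (hn : 6 ≤ n) (m : ℕ) (hm : m ≤ n) :
    ∑ E ∈ gr n m, D2 E ≤ (gr n m).card * (20 * m) := by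
  induction m with
  | zero =>
    have : gr n 0 = {∅} := by unfold gr; rw [powersetCard_zero]
    rw [this, Finset.sum_singleton]
    unfold D2 deg
    simp
  | succ m ih =>
    have ih' := ih (by omega)
    have hP := pairs_large hn
    have hnpos : (0 : ℝ) < n := by
      have : 0 < n := by omega
      exact_mod_cast this
    have hmn : (m : ℝ) + 1 ≤ n := by exact_mod_cast hm
    have hM : (n : ℝ) ^ 2 / 4 ≤ ((pairs n).card : ℝ) - m := by linarith
    have hMpos : 0 < ((pairs n).card : ℝ) - m := by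
      have : 0 < (n : ℝ) ^ 2 / 4 := by positivity
      linarith
    -- (m+1) sum over E' = sum over E, e of D2 (insert e E)
    have h1 : ((m : ℝ) + 1) * ∑ E' ∈ gr n (m + 1), D2 E'
        = ∑ E ∈ gr n m, ∑ e ∈ pairs n \ E, D2 (insert e E) := by
      rw [← sum_gr_succ m (fun E e => D2 (insert e E)), Finset.mul_sum]
      refine Finset.sum_congr rfl fun E' hE' => ?_
      rw [Finset.sum_congr rfl fun e he => by rw [insert_erase he], Finset.sum_const, nsmul_eq_mul,
        (mem_gr.mp hE').2]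
      push_cast; rfl
    have h2 : ∀ E ∈ gr n m, ∑ e ∈ pairs n \ E, D2 (insert e E)
        ≤ (((pairs n).card : ℝ) - m) * D2 E + 5 * (n : ℝ) ^ 2 := by
      intro E hE
      obtain ⟨h3, h4⟩ := mem_gr.mp hE
      rw [Finset.sum_congr rfl fun e he => D2_insert (mem_sdiff.mp he).2, Finset.sum_add_distrib,
        Finset.sum_const, nsmul_eq_mul, card_sdiff_of_subset h3,
        Nat.cast_sub (card_le_card h3), h4]
      have h5 := sum_sum_mem (A := pairs n \ E) sdiff_subset (fun v => 2 * (deg E v : ℝ) + 1)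
        (fun v => by positivity)
      have h6 : ∑ v, (2 * (deg E v : ℝ) + 1) = 4 * m + n := by
        rw [Finset.sum_add_distrib, ← Finset.mul_sum, ← Nat.cast_sum, sum_deg h3, h4]
        simp
        ring
      rw [h6] at h5
      have h7 : (n : ℝ) * (4 * m + n) ≤ 5 * (n : ℝ) ^ 2 := by nlinarith
      linarith
    have h3 : ((m : ℝ) + 1) * ∑ E' ∈ gr n (m + 1), D2 E'
        ≤ (((pairs n).card : ℝ) - m) * ((gr n m).card * (20 * m))
          + (gr n m).card * (5 * (n : ℝ) ^ 2) := by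
      rw [h1]
      refine (Finset.sum_le_sum h2).trans ?_
      rw [Finset.sum_add_distrib, ← Finset.mul_sum, Finset.sum_const, nsmul_eq_mul]
      have := mul_le_mul_of_nonneg_left ih' hMpos.le
      linarith
    have h4 : (gr n m).card * (5 * (n : ℝ) ^ 2)
        ≤ (gr n m).card * (20 * (((pairs n).card : ℝ) - m)) := by
      refine mul_le_mul_of_nonneg_left ?_ (Nat.cast_nonneg _)
      linarith
    have h5 := card_gr_succ (n := n) m
    have h6 : ((m : ℝ) + 1) * ∑ E' ∈ gr n (m + 1), D2 E'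
        ≤ ((m : ℝ) + 1) * ((gr n (m + 1)).card * (20 * ((m : ℝ) + 1))) := by
      calc _ ≤ (gr n m).card * (((pairs n).card : ℝ) - m) * (20 * (m + 1)) := by nlinarith
        _ = _ := by rw [← h5]; ring
    have h7 := le_of_mul_le_mul_left h6 (by positivity)
    push_cast
    exact h7

/-! ### one step -/

lemma log_one_add_ge {x : ℝ} (hx : 0 ≤ x) : x - x ^ 2 / 2 ≤ Real.log (1 + x) := by
  have h := Real.le_log_one_add_of_nonneg hx
  have h2 : x - x ^ 2 / 2 ≤ 2 * x / (x + 2) := by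
    rw [le_div_iff₀ (by linarith)]
    nlinarith [mul_nonneg hx (sq_nonneg x)]
  linarith

/-- cost of one step at the graph `E` -/
noncomputable def stepc (α : ℝ) (m : ℕ) (E : Finset (Sym2 (Fin n))) : ℝ :=
  (1 / (((pairs n).card : ℝ) - m)) *
    ∑ e ∈ pairs n \ E, -Real.log (K α E e * (((pairs n).card : ℝ) - m))

lemma stepc_le (hn : 6 ≤ n) {α : ℝ} (hα : 0 < α) {m : ℕ} (hm : m ≤ n)
    {E : Finset (Sym2 (Fin n))} (hE : E ∈ gr n m) :
    stepc α m E ≤ 4 / (n * α ^ 2) * D2 E := by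
  obtain ⟨h1, h2⟩ := mem_gr.mp hE
  have hP := pairs_large hn
  have hnpos : (0 : ℝ) < n := by
    have : 0 < n := by omega
    exact_mod_cast this
  have hmn : (m : ℝ) ≤ n := by exact_mod_cast hm
  obtain ⟨M, hMdef⟩ : ∃ M : ℝ, M = ((pairs n).card : ℝ) - m := ⟨_, rfl⟩
  have hM : (n : ℝ) ^ 2 / 4 ≤ M := by rw [hMdef]; linarith
  have hMpos : 0 < M := lt_of_lt_of_le (by positivity) hM
  have hcard : ((pairs n \ E).card : ℝ) = M := by
    rw [card_sdiff_of_subset h1, Nat.cast_sub (card_le_card h1), h2, hMdef]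
  have hne : (pairs n \ E).Nonempty := by
    rw [← card_pos]
    have : (0 : ℝ) < (pairs n \ E).card := by rw [hcard]; exact hMpos
    exact_mod_cast this
  set x : Fin n → ℝ := fun v => (deg E v : ℝ) / α with hx
  have hx0 : ∀ v, 0 ≤ x v := fun v => by rw [hx]; positivity
  set y : Sym2 (Fin n) → ℝ := fun e => ∏ v ∈ univ.filter (fun v => v ∈ e), (1 + x v) with hy
  have hy0 : ∀ e, 0 < y e := fun e => Finset.prod_pos fun v _ => by have := hx0 v; linarith
  have hwt : ∀ e ∈ pairs n, wt α E e = α ^ 2 * y e := by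
    intro e he
    rw [hy, ← card_filter_mem he, ← Finset.prod_const, ← Finset.prod_mul_distrib]
    unfold wt
    refine Finset.prod_congr rfl fun v _ => ?_
    rw [hx]
    field_simp
    ring
  set z : Sym2 (Fin n) → ℝ := fun e => ∑ v ∈ univ.filter (fun v => v ∈ e), x v with hz
  set q : Sym2 (Fin n) → ℝ := fun e => ∑ v ∈ univ.filter (fun v => v ∈ e), x v ^ 2 with hq
  have hyle : ∀ e ∈ pairs n, y e ≤ 1 + z e + q e / 2 := by
    intro e he
    induction e with
    | _ u v =>
      rw [mem_pairs, Sym2.mk_isDiag_iff] at he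
      rw [hy, hz, hq]
      simp only [filter_mem]
      rw [prod_pair he, sum_pair he, sum_pair he]
      nlinarith [sq_nonneg (x u - x v)]
  have hylog : ∀ e, z e - q e / 2 ≤ Real.log (y e) := by
    intro e
    rw [hy, hz, hq]
    simp only
    rw [Real.log_prod (fun v _ => by have := hx0 v; positivity), Finset.sum_div,
      ← Finset.sum_sub_distrib]
    exact Finset.sum_le_sum fun v _ => log_one_add_ge (hx0 v)
  set W : ℝ := ∑ f ∈ pairs n \ E, wt α E f with hW
  have hWpos : 0 < W := Finset.sum_pos (fun f _ => wt_pos hα _ _) hne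
  have hWy : W = α ^ 2 * ∑ f ∈ pairs n \ E, y f := by
    rw [hW, Finset.mul_sum]
    exact Finset.sum_congr rfl fun f hf => hwt f (mem_sdiff.mp hf).1
  set Y : ℝ := ∑ f ∈ pairs n \ E, y f with hY
  have hYpos : 0 < Y := Finset.sum_pos (fun f _ => hy0 f) hne
  have hterm : ∀ e ∈ pairs n \ E, -Real.log (K α E e * M) = Real.log (Y / M) - Real.log (y e) := by
    intro e he
    have h3 : K α E e * M = y e / (Y / M) := by
      unfold K
      rw [← hW, hWy, hwt e (mem_sdiff.mp he).1]
      field_simp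
    rw [h3, Real.log_div (hy0 e).ne' (by positivity)]
    ring
  have hlogY : Real.log (Y / M) ≤ (∑ e ∈ pairs n \ E, (z e + q e / 2)) / M := by
    have h3 : Y ≤ M + ∑ e ∈ pairs n \ E, (z e + q e / 2) := by
      rw [← hcard, hY]
      have : ((pairs n \ E).card : ℝ) = ∑ _e ∈ pairs n \ E, (1 : ℝ) := by simp
      rw [this, ← Finset.sum_add_distrib]
      exact Finset.sum_le_sum fun e he => by
        have := hyle e (mem_sdiff.mp he).1
        linarith
    have h4 := Real.log_le_sub_one_of_pos (show 0 < Y / M by positivity)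
    refine h4.trans ?_
    rw [le_div_iff₀ hMpos, sub_mul, div_mul_cancel₀ _ hMpos.ne']
    linarith
  unfold stepc
  rw [← hMdef]
  have hsum : ∑ e ∈ pairs n \ E, -Real.log (K α E e * M) ≤ ∑ e ∈ pairs n \ E, q e := by
    rw [Finset.sum_congr rfl hterm, Finset.sum_sub_distrib, Finset.sum_const, nsmul_eq_mul, hcard]
    have h5 : M * Real.log (Y / M) ≤ ∑ e ∈ pairs n \ E, (z e + q e / 2) := by
      rw [mul_comm]
      rwa [le_div_iff₀ hMpos] at hlogY
    have h6 : ∑ e ∈ pairs n \ E, (z e - q e / 2) ≤ ∑ e ∈ pairs n \ E, Real.log (y e) :=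
      Finset.sum_le_sum fun e _ => hylog e
    have h7 : ∑ e ∈ pairs n \ E, (z e + q e / 2) - ∑ e ∈ pairs n \ E, (z e - q e / 2)
        = ∑ e ∈ pairs n \ E, q e := by
      rw [← Finset.sum_sub_distrib]
      exact Finset.sum_congr rfl fun e _ => by ring
    linarith
  have hqsum : ∑ e ∈ pairs n \ E, q e ≤ n * (D2 E / α ^ 2) := by
    have := sum_sum_mem (A := pairs n \ E) sdiff_subset (fun v => x v ^ 2)
      (fun v => by positivity)
    refine this.trans (le_of_eq ?_)
    congr 1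
    unfold D2
    rw [Finset.sum_div]
    refine Finset.sum_congr rfl fun v _ => ?_
    rw [hx]
    simp only
    rw [div_pow]
  have hD2 : 0 ≤ D2 E := Finset.sum_nonneg fun v _ => by positivity
  calc 1 / M * ∑ e ∈ pairs n \ E, -Real.log (K α E e * M) ≤ 1 / M * (n * (D2 E / α ^ 2)) :=
        mul_le_mul_of_nonneg_left (hsum.trans hqsum) (by positivity)
    _ ≤ 1 / ((n : ℝ) ^ 2 / 4) * (n * (D2 E / α ^ 2)) := by
        refine mul_le_mul_of_nonneg_right ?_ (by positivity)
        exact one_div_le_one_div_of_le (by positivity) hM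
    _ = _ := by field_simp

/-! ### relative entropy -/

/-- `sum over graphs with m edges` of `- log (pa / er)` -/
noncomputable def ent (α : ℝ) (n m : ℕ) : ℝ :=
  (1 / ((gr n m).card : ℝ)) * ∑ E ∈ gr n m, -Real.log (pa α n m E * (gr n m).card)

lemma gr_card_pos {m : ℕ} (hm : m ≤ (pairs n).card) : 0 < ((gr n m).card : ℝ) := by
  unfold gr
  rw [card_powersetCard]
  exact_mod_cast Nat.choose_pos hm

lemma ent_succ {α : ℝ} (hα : 0 < α) {m : ℕ} (hm : m + 1 ≤ (pairs n).card) :
    ent α n (m + 1) ≤ ent α n m + (1 / ((gr n m).card : ℝ)) * ∑ E ∈ gr n m, stepc α m E := by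
  have hg := gr_card_pos (n := n) (m := m) (by omega)
  have hg' := gr_card_pos (n := n) (m := m + 1) hm
  obtain ⟨M, hMdef⟩ : ∃ M : ℝ, M = ((pairs n).card : ℝ) - m := ⟨_, rfl⟩
  have hMpos : 0 < M := by
    rw [hMdef, sub_pos]
    have : m < (pairs n).card := by omega
    exact_mod_cast this
  have hcs := card_gr_succ (n := n) m
  rw [← hMdef] at hcs
  set a : Finset (Sym2 (Fin n)) → Sym2 (Fin n) → ℝ := fun E e =>
    (pa α n m E * (gr n m).card) * (K α E e * M) with ha
  have hmem : ∀ E' ∈ gr n (m + 1), ∀ e ∈ E', E'.erase e ∈ gr n m ∧ e ∈ pairs n \ E'.erase e := by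
    intro E' hE' e he
    obtain ⟨h1, h2⟩ := mem_gr.mp hE'
    exact ⟨mem_gr.mpr ⟨(erase_subset _ _).trans h1, by rw [card_erase_of_mem he, h2]; rfl⟩,
      mem_sdiff.mpr ⟨h1 he, notMem_erase e E'⟩⟩
  have ha0 : ∀ E' ∈ gr n (m + 1), ∀ e ∈ E', 0 < a (E'.erase e) e := by
    intro E' hE' e he
    obtain ⟨h1, h2⟩ := hmem E' hE' e he
    exact mul_pos (mul_pos (pa_pos hα m _ h1) hg) (mul_pos (K_pos hα h2) hMpos)
  have hm1 : (0 : ℝ) < (m : ℝ) + 1 := by positivity
  -- Jensen
  have hJ : ∀ E' ∈ gr n (m + 1), -Real.log (pa α n (m + 1) E' * (gr n (m + 1)).card)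
      ≤ (1 / ((m : ℝ) + 1)) * ∑ e ∈ E', -Real.log (a (E'.erase e) e) := by
    intro E' hE'
    obtain ⟨h1, h2⟩ := mem_gr.mp hE'
    have h3 : pa α n (m + 1) E' * (gr n (m + 1)).card
        = ∑ e ∈ E', (1 / ((m : ℝ) + 1)) • a (E'.erase e) e := by
      rw [pa_succ h1, Finset.sum_mul]
      refine Finset.sum_congr rfl fun e _ => ?_
      rw [ha, smul_eq_mul]
      simp only
      have : ((gr n (m + 1)).card : ℝ) = (gr n m).card * M / (m + 1) := by
        rw [eq_div_iff hm1.ne', hcs]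
      rw [this]
      ring
    have h4 : ∑ e ∈ E', (1 / ((m : ℝ) + 1)) = 1 := by
      rw [Finset.sum_const, h2, nsmul_eq_mul]
      push_cast
      field_simp
    have h5 := strictConcaveOn_log_Ioi.concaveOn.le_map_sum (t := E')
      (w := fun _ => 1 / ((m : ℝ) + 1)) (p := fun e => a (E'.erase e) e)
      (fun e _ => by positivity) h4 (fun e he => ha0 E' hE' e he)
    rw [h3]
    have h6 : (1 / ((m : ℝ) + 1)) * ∑ e ∈ E', -Real.log (a (E'.erase e) e)
        = - ∑ e ∈ E', (1 / ((m : ℝ) + 1)) • Real.log (a (E'.erase e) e) := by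
      rw [← Finset.sum_neg_distrib, Finset.mul_sum]
      refine Finset.sum_congr rfl fun e _ => ?_
      rw [smul_eq_mul]; ring
    rw [h6]
    exact neg_le_neg h5
  have hlog : ∀ E ∈ gr n m, ∀ e ∈ pairs n \ E, -Real.log (a E e)
      = -Real.log (pa α n m E * (gr n m).card) + -Real.log (K α E e * M) := by
    intro E hE e he
    rw [ha]
    simp only
    rw [Real.log_mul (mul_pos (pa_pos hα m _ hE) hg).ne' (mul_pos (K_pos hα he) hMpos).ne']
    ring
  have hcardE : ∀ E ∈ gr n m, ((pairs n \ E).card : ℝ) = M := by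
    intro E hE
    obtain ⟨h1, h2⟩ := mem_gr.mp hE
    rw [card_sdiff_of_subset h1, Nat.cast_sub (card_le_card h1), h2, hMdef]
  have hstep : ∀ E ∈ gr n m, ∑ e ∈ pairs n \ E, -Real.log (a E e)
      = M * (-Real.log (pa α n m E * (gr n m).card)) + M * stepc α m E := by
    intro E hE
    rw [Finset.sum_congr rfl (hlog E hE), Finset.sum_add_distrib, Finset.sum_const, nsmul_eq_mul,
      hcardE E hE]
    congr 1
    unfold stepc
    rw [← hMdef, ← mul_assoc, mul_one_div_cancel hMpos.ne', one_mul]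
  unfold ent
  calc 1 / ((gr n (m + 1)).card : ℝ) *
        ∑ E' ∈ gr n (m + 1), -Real.log (pa α n (m + 1) E' * (gr n (m + 1)).card)
      ≤ 1 / ((gr n (m + 1)).card : ℝ) *
        ∑ E' ∈ gr n (m + 1), (1 / ((m : ℝ) + 1)) * ∑ e ∈ E', -Real.log (a (E'.erase e) e) :=
        mul_le_mul_of_nonneg_left (Finset.sum_le_sum hJ) (by positivity)
    _ = 1 / ((gr n (m + 1)).card : ℝ) * ((1 / ((m : ℝ) + 1)) *
        ∑ E ∈ gr n m, ∑ e ∈ pairs n \ E, -Real.log (a E e)) := by
        rw [← Finset.mul_sum, sum_gr_succ m (fun E e => -Real.log (a E e))]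
    _ = 1 / ((gr n (m + 1)).card : ℝ) * ((1 / ((m : ℝ) + 1)) *
        (M * ∑ E ∈ gr n m, -Real.log (pa α n m E * (gr n m).card)
          + M * ∑ E ∈ gr n m, stepc α m E)) := by
        rw [Finset.sum_congr rfl hstep, Finset.sum_add_distrib, ← Finset.mul_sum,
          ← Finset.mul_sum]
    _ = (M / (((gr n (m + 1)).card : ℝ) * (m + 1))) *
        (∑ E ∈ gr n m, -Real.log (pa α n m E * (gr n m).card) + ∑ E ∈ gr n m, stepc α m E) := by
        generalize (∑ E ∈ gr n m, -Real.log (pa α n m E * (gr n m).card)) = A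
        generalize (∑ E ∈ gr n m, stepc α m E) = B
        field_simp
    _ = (1 / ((gr n m).card : ℝ)) *
        (∑ E ∈ gr n m, -Real.log (pa α n m E * (gr n m).card) + ∑ E ∈ gr n m, stepc α m E) := by
        have h9 : M / (((gr n (m + 1)).card : ℝ) * (m + 1)) = 1 / ((gr n m).card : ℝ) := by
          rw [hcs]; field_simp
        rw [h9]
    _ = _ := by rw [mul_add]

lemma ent_le (hn : 6 ≤ n) {α : ℝ} (hα : 0 < α) (m : ℕ) (hm : m ≤ n) :
    ent α n m ≤ 80 * m / α ^ 2 := by
  have hP := pairs_large hn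
  have hnpos : (0 : ℝ) < n := by
    have : 0 < n := by omega
    exact_mod_cast this
  have hnP : n ≤ (pairs n).card := by
    have : (n : ℝ) ≤ (pairs n).card := by
      have : 0 < (n : ℝ) ^ 2 / 4 := by positivity
      linarith
    exact_mod_cast this
  induction m with
  | zero =>
    unfold ent
    have : gr n 0 = {∅} := by unfold gr; rw [powersetCard_zero]
    rw [this, Finset.sum_singleton, pa, if_pos rfl]
    simp
  | succ m ih =>
    have h1 := ent_succ (n := n) hα (m := m) (by omega)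
    have h2 := ih (by omega)
    have hg := gr_card_pos (n := n) (m := m) (by omega)
    have h3 : ∑ E ∈ gr n m, stepc α m E ≤ 4 / (n * α ^ 2) * ((gr n m).card * (20 * m)) := by
      calc _ ≤ ∑ E ∈ gr n m, 4 / (n * α ^ 2) * D2 E :=
            Finset.sum_le_sum fun E hE => stepc_le hn hα (by omega) hE
        _ = 4 / (n * α ^ 2) * ∑ E ∈ gr n m, D2 E := by rw [Finset.mul_sum]
        _ ≤ _ := mul_le_mul_of_nonneg_left (sum_D2_le hn m (by omega)) (by positivity)
    have h4 : (1 / ((gr n m).card : ℝ)) * ∑ E ∈ gr n m, stepc α m E ≤ 80 / α ^ 2 := by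
      calc _ ≤ (1 / ((gr n m).card : ℝ)) * (4 / (n * α ^ 2) * ((gr n m).card * (20 * m))) :=
            mul_le_mul_of_nonneg_left h3 (by positivity)
        _ = 80 / α ^ 2 * (m / n) := by field_simp; ring
        _ ≤ 80 / α ^ 2 * 1 := by
            refine mul_le_mul_of_nonneg_left ?_ (by positivity)
            rw [div_le_one hnpos]
            have : (m : ℝ) + 1 ≤ n := by exact_mod_cast hm
            linarith
        _ = _ := mul_one _
    have h5 : 80 * ((m + 1 : ℕ) : ℝ) / α ^ 2 = 80 * m / α ^ 2 + 80 / α ^ 2 := by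
      push_cast; ring
    rw [h5]
    linarith

/-! ### total variation -/

lemma neg_log_ge {L : ℝ} (hL : 0 < L) : (1 - L) + (max (1 - L) 0) ^ 2 / 2 ≤ -Real.log L := by
  rcases le_or_gt 1 L with h | h
  · rw [max_eq_right (by linarith)]
    have := Real.log_le_sub_one_of_pos hL
    norm_num
    linarith
  · rw [max_eq_left (by linarith)]
    have h1 : |1 - L| < 1 := by rw [abs_lt]; constructor <;> linarith
    have h2 := Real.hasSum_pow_div_log_of_abs_lt_one h1
    have h3 : ∑ i ∈ range 2, (1 - L) ^ (i + 1) / ((i : ℝ) + 1) ≤ -Real.log (1 - (1 - L)) := by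
      refine sum_le_hasSum _ (fun i _ => ?_) h2
      have : 0 ≤ 1 - L := by linarith
      positivity
    rw [Finset.sum_range_succ, Finset.sum_range_succ, Finset.sum_range_zero] at h3
    norm_num at h3
    linarith

theorem tv_le (hn : 6 ≤ n) {α : ℝ} (hα : 0 < α) {m : ℕ} (hm : m ≤ n) :
    tv (pa α n m) (er n m) ≤ 13 * √n / α := by
  have hP := pairs_large hn
  have hnpos : (0 : ℝ) < n := by
    have : 0 < n := by omega
    exact_mod_cast this
  have hmP : m ≤ (pairs n).card := by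
    have : (m : ℝ) ≤ (pairs n).card := by
      have h1 : 0 < (n : ℝ) ^ 2 / 4 := by positivity
      have h2 : (m : ℝ) ≤ n := by exact_mod_cast hm
      linarith
    exact_mod_cast this
  have hg := gr_card_pos (n := n) (m := m) hmP
  set g : ℝ := ((gr n m).card : ℝ) with hgdef
  have her : ∀ E ∈ gr n m, er n m E = 1 / g := by
    intro E hE
    unfold er
    rw [if_pos (mem_gr.mp hE), hgdef]
    unfold gr
    rw [card_powersetCard, one_div]
  have her0 : ∀ E, E ∉ gr n m → er n m E = 0 := by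
    intro E hE
    unfold er
    rw [if_neg (fun h => hE (mem_gr.mpr h))]
  set Lr : Finset (Sym2 (Fin n)) → ℝ := fun E => pa α n m E * g with hLr
  have hLpos : ∀ E ∈ gr n m, 0 < Lr E := fun E hE => mul_pos (pa_pos hα m E hE) hg
  have hsumL : ∑ E ∈ gr n m, Lr E = g := by
    rw [hLr, ← Finset.sum_mul, sum_pa hα m hmP, one_mul]
  -- tv as a sum of positive parts
  have h1 : tv (pa α n m) (er n m) = (1 / g) * ∑ E ∈ gr n m, max (1 - Lr E) 0 := by
    unfold tv
    have h2 : ∑ E, |pa α n m E - er n m E| = ∑ E ∈ gr n m, |pa α n m E - er n m E| := by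
      symm
      refine Finset.sum_subset (subset_univ _) fun E _ hE => ?_
      rw [pa_zero_of_notMem m E hE, her0 E hE]; simp
    rw [h2]
    have h3 : ∀ E ∈ gr n m, |pa α n m E - er n m E|
        = (1 / g) * (2 * max (1 - Lr E) 0 - (1 - Lr E)) := by
      intro E hE
      rw [her E hE]
      have h4 : pa α n m E - 1 / g = -((1 / g) * (1 - Lr E)) := by
        rw [hLr]; field_simp; ring
      rw [h4, abs_neg, abs_mul, abs_of_pos (by positivity)]
      congr 1
      rcases le_total 0 (1 - Lr E) with h | h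
      · rw [abs_of_nonneg h, max_eq_left h]; ring
      · rw [abs_of_nonpos h, max_eq_right h]; ring
    rw [Finset.sum_congr rfl h3, ← Finset.mul_sum, Finset.sum_sub_distrib, Finset.sum_sub_distrib,
      hsumL, Finset.sum_const, nsmul_eq_mul, mul_one, ← hgdef, ← Finset.mul_sum]
    ring
  have h2 : (1 / g) * ∑ E ∈ gr n m, (max (1 - Lr E) 0) ^ 2 ≤ 2 * ent α n m := by
    unfold ent
    rw [← hgdef]
    have h3 : ∑ E ∈ gr n m, ((1 - Lr E) + (max (1 - Lr E) 0) ^ 2 / 2)
        ≤ ∑ E ∈ gr n m, -Real.log (Lr E) := Finset.sum_le_sum fun E hE => neg_log_ge (hLpos E hE)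
    rw [Finset.sum_add_distrib, Finset.sum_sub_distrib, hsumL, Finset.sum_const, nsmul_eq_mul,
      mul_one, ← hgdef, sub_self, zero_add, ← Finset.sum_div] at h3
    have h4 : 0 < 1 / g := by positivity
    have h5 := mul_le_mul_of_nonneg_left h3 h4.le
    calc _ = 2 * (1 / g * ((∑ E ∈ gr n m, (max (1 - Lr E) 0) ^ 2) / 2)) := by ring
      _ ≤ _ := mul_le_mul_of_nonneg_left h5 (by norm_num)
  have h3 : tv (pa α n m) (er n m) ^ 2 ≤ 2 * ent α n m := by
    rw [h1]
    have h4 := sq_sum_le_card_mul_sum_sq (s := gr n m) (f := fun E => max (1 - Lr E) 0)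
    calc _ = (1 / g) ^ 2 * (∑ E ∈ gr n m, max (1 - Lr E) 0) ^ 2 := by ring
      _ ≤ (1 / g) ^ 2 * (g * ∑ E ∈ gr n m, (max (1 - Lr E) 0) ^ 2) :=
          mul_le_mul_of_nonneg_left h4 (by positivity)
      _ = (1 / g) * ∑ E ∈ gr n m, (max (1 - Lr E) 0) ^ 2 := by field_simp
      _ ≤ _ := h2
  have h4 : tv (pa α n m) (er n m) ^ 2 ≤ (13 * √n / α) ^ 2 := by
    refine h3.trans ?_
    have h5 := ent_le hn hα m hm
    have h6 : (m : ℝ) ≤ n := by exact_mod_cast hm
    calc 2 * ent α n m ≤ 2 * (80 * m / α ^ 2) := by linarith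
      _ ≤ 2 * (80 * n / α ^ 2) := by gcongr
      _ ≤ 169 * n / α ^ 2 := by
          have h7 : 0 ≤ (n : ℝ) / α ^ 2 := by positivity
          have h8 : 2 * (80 * (n : ℝ) / α ^ 2) = 160 * ((n : ℝ) / α ^ 2) := by ring
          have h9 : 169 * (n : ℝ) / α ^ 2 = 169 * ((n : ℝ) / α ^ 2) := by ring
          rw [h8, h9]
          linarith
      _ = _ := by rw [div_pow, mul_pow, Real.sq_sqrt hnpos.le]; norm_num
  exact abs_le_of_sq_le_sq' h4 (by positivity) |>.2

end Q299.PAE
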